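import Pool.Agent.EV.CDefs

/-!
# Project T5 (MP_a3214d), even order: the sums and the statements of the analytic part

`S` is the system of primes of the base field. The variables are sets of primes indexed by `ι`
(the conjugacy classes of least index), `v u` is the vector of the class `u` and `W u` the space
of the commutators with it. The condition at a prime is bilinear with values in `W u`, and there
are outer characters `c` ramified in a finite set `M` of primes.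
-/

set_option autoImplicit false

open scoped BigOperators Topology
open Filter

namespace Pool.Agent.EW

open Pool.Agent.H98.MF
open Pool.Agent.H32.MQ (El)
open Pool.Agent.D8 (pat ad)
open Pool.Agent.EV (VV BD xc Off cT)

section

variable {S : Sys} {d n : ℕ} {ι : Type} [Fintype ι]

/-- the condition at the primes of a family of sets -/
def okq (Bd : BD d n) (v : ι → VV d) (c : ι → VV n → El S) (x : ι → Finset S.P) : Prop :=
  ∀ u, ∀ p ∈ x u, ∀ ζ : VV n,
    ∑ w, (∑ q ∈ x w, S.J q p) * (ζ ⬝ᵥ Bd.B (v w) (v u)) + xc (c u ζ) p = 0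

omit [Fintype ι] in
/-- the values of the form lie in `W u` -/
def Wq (Bd : BD d n) (v : ι → VV d) (W : ι → Submodule (ZMod 2) (VV n)) : Prop :=
  ∀ u w, Bd.B w (v u) ∈ W u

omit [Fintype ι] in
/-- outer characters: additive in the dual vector, trivial on the dual vectors that vanish
on `W u` -/
structure Adq (W : ι → Submodule (ZMod 2) (VV n)) (c : ι → VV n → El S) : Prop where
  add : ∀ u ζ ζ', c u (ζ + ζ') = ad (c u ζ) (c u ζ')
  ann : ∀ u ζ, (∀ z ∈ W u, ζ ⬝ᵥ z = 0) → c u ζ = (0, ∅)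

omit [Fintype ι] in
/-- patterns that generate -/
def Genq (Bd : BD d n) (v : ι → VV d) (W : ι → Submodule (ZMod 2) (VV n))
    (c : ι → VV n → El S) (Φ : Finset ι → Prop) : Prop :=
  ∀ U : Finset ι, Φ U → ∀ u, ∀ ζ : VV n, c u ζ = (0, ∅) →
    (∀ w ∈ U, ζ ⬝ᵥ Bd.B (v w) (v u) = 0) → ∀ z ∈ W u, ζ ⬝ᵥ z = 0

open Classical in
/-- the sum over the families of bounded norm satisfying the condition, with weights -/
noncomputable def SQ (Bd : BD d n) (v : ι → VV d) (W : ι → Submodule (ZMod 2) (VV n))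
    (c : ι → VV n → El S) (M : Finset S.P) (Φ : Finset ι → Prop)
    (E : (ι → Finset S.P) → Prop) (θ : (ι → S.T) → ℝ) (Y : ℝ) : ℝ :=
  ∑ x ∈ Fintype.piFinset (fun _ : ι => S.bx Y),
    if S.Dj x ∧ Off S M x ∧ okq Bd v c x ∧ Φ (pat x) ∧ E x ∧ ((∏ u, S.nm (x u) : ℕ) : ℝ) ≤ Y
    then θ (fun u => S.tys (x u)) * ∏ u, (Nat.card (W u) : ℝ) ^ (x u).card
    else 0

end

/-! ### statements -/

/-- the asymptotic formula for a fixed frame -/
def SFixq : Prop := ∀ (S : Sys) (d n : ℕ) (Bd : BD d n) (ι : Type) [Fintype ι] [Nonempty ι]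
  (v : ι → VV d) (W : ι → Submodule (ZMod 2) (VV n)) (c : ι → VV n → S.T)
  (Φ : Finset ι → Prop) (θ : (ι → S.T) → ℝ), Wq Bd v W →
  Adq (S := S) W (fun u ζ => (c u ζ, ∅)) →
  Genq (S := S) Bd v W (fun u ζ => (c u ζ, ∅)) Φ → Φ Finset.univ → (∀ t, 0 ≤ θ t) →
  ∃ L : ℝ, 0 ≤ L ∧ Tendsto (fun Y : ℝ =>
      SQ Bd v W (fun u ζ => (c u ζ, ∅)) ∅ Φ (fun _ => True) θ Y /
        (Y * Real.log Y ^ (Fintype.card ι - 1))) atTop (𝓝 L) ∧
    ((∃ x : ι → Finset S.P, S.Dj x ∧ okq (S := S) Bd v (fun u ζ => (c u ζ, ∅)) x ∧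
      0 < θ (fun u => S.tys (x u))) → 0 < L)

/-- families without primes of a given type in one of the sets are negligible -/
def SExcq : Prop := ∀ (S : Sys) (d n : ℕ) (Bd : BD d n) (ι : Type) [Fintype ι] [Nonempty ι]
  (v : ι → VV d) (W : ι → Submodule (ZMod 2) (VV n)) (c : ι → VV n → S.T)
  (Φ : Finset ι → Prop), Wq Bd v W → Adq (S := S) W (fun u ζ => (c u ζ, ∅)) →
  Genq (S := S) Bd v W (fun u ζ => (c u ζ, ∅)) Φ → Φ Finset.univ → ∀ (u1 : ι) (t1 : S.T),
  Tendsto (fun Y : ℝ =>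
      SQ Bd v W (fun u ζ => (c u ζ, ∅)) ∅ Φ (fun x => ∀ p ∈ x u1, S.ty p ≠ t1) (fun _ => 1) Y /
        (Y * Real.log Y ^ (Fintype.card ι - 1))) atTop (𝓝 0)

/-- the uniform bound -/
def SUnfq : Prop := ∀ (S : Sys) (d n : ℕ) (Bd : BD d n) (ι : Type) [Fintype ι] [Nonempty ι]
  (v : ι → VV d) (W : ι → Submodule (ZMod 2) (VV n)) (ε : ℝ), 0 < ε → Wq Bd v W →
  ∃ C : ℝ, 0 ≤ C ∧ ∀ (c : ι → VV n → El S) (M : Finset S.P) (Φ : Finset ι → Prop),
    Adq W c → (∀ u ζ, (c u ζ).2 ⊆ M) → Genq Bd v W c Φ → ∀ Y : ℝ, 2 ≤ Y →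
    SQ Bd v W c M Φ (fun _ => True) (fun _ => 1) Y ≤
      C * (S.nm M : ℝ) ^ ε * (Y * Real.log Y ^ (Fintype.card ι - 1))

end Pool.Agent.EW
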