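import Pool.Agent.EV.ADefs
import Pool.Agent.TF.Defs
import Pool.Agent.EW.QDefs

/-!
# Project T5 (MP_a3214d), even order: definitions

`G` is a finite group, `Ms` a set of involutions closed under conjugation, `N` the subgroup it
generates. `I = [N, G]` is central of exponent two, `V = N / I`. The classes in `Ms` are indexed
by `ι`. Homomorphisms congruent modulo `N` to a given homomorphism, cochains, configurations,
and the sums that count them.
-/

set_option autoImplicit false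

open scoped BigOperators
open NumberField IsDedekindDomain

namespace Pool.Agent.EW

open Pool.Agent.H98.MF
open Pool.Agent.H98.MK (sg)
open Pool.Agent.H32.MQ (El rep co)
open Pool.Agent.D8 (pat RxF)
open Pool.Agent.EV (VV BD xc Off trn LcS)

/-! ### the group -/

/-- coordinates for an extension of a normal elementary abelian 2-group by a central one -/
structure GB (G : Type) [Group G] where
  /-- the rank of `V` -/
  d : ℕ
  /-- the rank of `I` -/
  n : ℕ
  /-- the bilinear cocycle -/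
  β : VV d →ₗ[ZMod 2] VV d →ₗ[ZMod 2] VV n
  /-- the section of `V` -/
  s : VV d → G
  /-- the subgroup `I` -/
  zz : VV n → G
  s_mul : ∀ v w, s v * s w = s (v + w) * zz (β v w)
  zz_add : ∀ x y, zz (x + y) = zz x * zz y
  zz_cen : ∀ x g, zz x * g = g * zz x
  inj : ∀ v x, s v * zz x = 1 → v = 0 ∧ x = 0
  /-- the commutator with an element of the group -/
  c : G → VV d → VV n
  com : ∀ g v, s v * g = g * (s v * zz (c g v))

namespace GB

variable {G : Type} [Group G] (D : GB G)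

theorem two_V {r : ℕ} (v : VV r) : v + v = 0 := by
  funext i
  exact CharTwo.add_self_eq_zero (v i)

theorem zz_zero : D.zz 0 = 1 := by
  have h := D.zz_add 0 0
  rw [add_zero] at h
  exact left_eq_mul.1 h

theorem s_zero : D.s 0 = 1 := by
  have h := D.s_mul 0 0
  rw [add_zero, map_zero, D.zz_zero, mul_one] at h
  exact left_eq_mul.1 h.symm

theorem zz_self (x : VV D.n) : D.zz x * D.zz x = 1 := by
  rw [← D.zz_add, two_V, D.zz_zero]

theorem zz_inj {x y : VV D.n} (h : D.zz x = D.zz y) : x = y := by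
  have h1 : D.s 0 * D.zz (x + y) = 1 := by
    rw [D.s_zero, one_mul, D.zz_add, h, D.zz_self]
  have h2 := (D.inj _ _ h1).2
  funext i
  have h3 : x i + y i = 0 := congrFun h2 i
  exact CharTwo.add_eq_zero.1 h3

theorem mul_sz (v w : VV D.d) (x y : VV D.n) :
    D.s v * D.zz x * (D.s w * D.zz y) = D.s (v + w) * D.zz (x + y + D.β v w) := by
  rw [D.zz_add, D.zz_add]
  calc D.s v * D.zz x * (D.s w * D.zz y)
      = D.s v * (D.zz x * D.s w) * D.zz y := by simp only [mul_assoc]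
    _ = D.s v * (D.s w * D.zz x) * D.zz y := by rw [D.zz_cen]
    _ = (D.s v * D.s w) * (D.zz x * D.zz y) := by simp only [mul_assoc]
    _ = D.s (v + w) * (D.zz (D.β v w) * (D.zz x * D.zz y)) := by rw [D.s_mul, mul_assoc]
    _ = D.s (v + w) * (D.zz x * D.zz y * D.zz (D.β v w)) := by rw [D.zz_cen (D.β v w)]

theorem sz_inj {v w : VV D.d} {x y : VV D.n} (h : D.s v * D.zz x = D.s w * D.zz y) :
    v = w ∧ x = y := by
  have h1 : D.s (w + v) * D.zz (y + D.β w w + x + D.β w v) = 1 := by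
    have e1 : D.s w * D.zz (y + D.β w w) * (D.s v * D.zz x) =
        D.s (w + v) * D.zz (y + D.β w w + x + D.β w v) := D.mul_sz _ _ _ _
    rw [← e1, h, D.mul_sz, two_V, D.s_zero, one_mul]
    have e2 : y + D.β w w + y + D.β w w = (y + y) + (D.β w w + D.β w w) := by abel
    rw [e2, two_V, two_V, add_zero, D.zz_zero]
  have h2 := (D.inj _ _ h1).1
  have h3 : v = w := by
    funext i
    have h4 : w i + v i = 0 := congrFun h2 i
    exact (CharTwo.add_eq_zero.1 h4).symm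
  subst h3
  exact ⟨rfl, D.zz_inj (mul_left_cancel h)⟩

theorem c_mul (g h : G) (v : VV D.d) : D.c (g * h) v = D.c g v + D.c h v := by
  have h1 : D.s v * (g * h) = g * h * (D.s v * D.zz (D.c g v + D.c h v)) := by
    rw [← mul_assoc, D.com g v, mul_assoc g, mul_assoc (D.s v), D.zz_cen, ← mul_assoc (D.s v),
      D.com h v, D.zz_add, D.zz_cen (D.c g v)]
    simp only [mul_assoc]
  rw [D.com (g * h) v] at h1
  exact (D.sz_inj (mul_left_cancel h1)).2

theorem c_one (v : VV D.d) : D.c 1 v = 0 := by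
  have h := D.c_mul 1 1 v
  rw [mul_one] at h
  exact left_eq_add.1 h

theorem c_add (g : G) (v w : VV D.d) : D.c g (v + w) = D.c g v + D.c g w := by
  have h1 : D.s v * D.s w * g = g * (D.s v * D.s w * D.zz (D.c g v + D.c g w)) := by
    rw [mul_assoc, D.com g w, ← mul_assoc (D.s v), D.com g v, D.zz_add]
    calc g * (D.s v * D.zz (D.c g v)) * (D.s w * D.zz (D.c g w))
        = g * (D.s v * (D.zz (D.c g v) * D.s w) * D.zz (D.c g w)) := by simp only [mul_assoc]
      _ = g * (D.s v * (D.s w * D.zz (D.c g v)) * D.zz (D.c g w)) := by rw [D.zz_cen]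
      _ = _ := by simp only [mul_assoc]
  have h2 : D.s (v + w) * D.zz (D.β v w) * g =
      g * (D.s (v + w) * D.zz (D.β v w) * D.zz (D.c g (v + w))) := by
    rw [mul_assoc, D.zz_cen, ← mul_assoc, D.com g (v + w)]
    simp only [mul_assoc]
    rw [← D.zz_cen (D.c g (v + w)) (D.zz (D.β v w))]
  rw [← D.s_mul, h1] at h2
  have h3 := mul_left_cancel (mul_left_cancel h2)
  exact (D.zz_inj h3).symm

theorem c_zero (g : G) : D.c g 0 = 0 := by
  have h := D.c_add g 0 0
  rw [add_zero] at h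
  exact left_eq_add.1 h

theorem c_zz (x : VV D.n) (v : VV D.d) : D.c (D.zz x) v = 0 := by
  have h := D.com (D.zz x) v
  rw [← D.zz_cen] at h
  have h1 := mul_left_cancel h
  have h2 : D.s v * D.zz 0 = D.s v * D.zz (D.c (D.zz x) v) := by
    rw [D.zz_zero, mul_one]
    exact h1
  exact (D.sz_inj h2).2.symm

theorem c_s (w v : VV D.d) : D.c (D.s w) v = D.β w v + D.β v w := by
  have h := D.com (D.s w) v
  rw [← mul_assoc, D.s_mul, D.s_mul, mul_assoc, ← D.zz_add, add_comm v w] at h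
  have h1 := (D.sz_inj h).2
  rw [h1, ← add_assoc, two_V, zero_add]

/-- the commutator form -/
def Bd : BD D.d D.n where
  B := D.β + D.β.flip
  alt v := by
    rw [LinearMap.add_apply, LinearMap.add_apply, LinearMap.flip_apply]
    exact two_V _

theorem Bd_apply (w v : VV D.d) : D.Bd.B w v = D.β w v + D.β v w := rfl

theorem c_s' (w v : VV D.d) : D.c (D.s w) v = D.Bd.B w v := D.c_s w v

theorem sz_sq (v : VV D.d) (x : VV D.n) : (D.s v * D.zz x) ^ 2 = D.zz (D.β v v) := by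
  rw [pow_two, D.mul_sz, two_V, two_V, zero_add, D.s_zero, one_mul]

theorem sz_sq_eq_one (v : VV D.d) (x : VV D.n) : (D.s v * D.zz x) ^ 2 = 1 ↔ D.β v v = 0 := by
  rw [D.sz_sq]
  constructor
  · intro h
    rw [← D.zz_zero] at h
    exact D.zz_inj h
  · intro h
    rw [h, D.zz_zero]

theorem sz_eq_one (v : VV D.d) (x : VV D.n) : D.s v * D.zz x = 1 ↔ v = 0 ∧ x = 0 := by
  constructor
  · exact D.inj v x
  · rintro ⟨rfl, rfl⟩
    rw [D.s_zero, D.zz_zero, one_mul]


/-- the commutators with `v` -/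
def W (v : VV D.d) : Submodule (ZMod 2) (VV D.n) where
  carrier := {x | ∃ g, x = D.c g v}
  add_mem' := by
    rintro _ _ ⟨g, rfl⟩ ⟨h, rfl⟩
    exact ⟨g * h, (D.c_mul g h v).symm⟩
  zero_mem' := ⟨1, (D.c_one v).symm⟩
  smul_mem' := by
    rintro a _ ⟨g, rfl⟩
    have h : a = 0 ∨ a = 1 := by
      revert a
      decide
    rcases h with rfl | rfl
    · exact ⟨1, by rw [zero_smul, D.c_one]⟩
    · exact ⟨g, one_smul _ _⟩

theorem mem_W {v : VV D.d} {x : VV D.n} : x ∈ D.W v ↔ ∃ g, x = D.c g v := Iff.rfl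

theorem B_mem_W (w v : VV D.d) : D.Bd.B w v ∈ D.W v := ⟨D.s w, (D.c_s' w v).symm⟩

/-- congruent modulo `N` -/
def Sim {A : Type} (ρ ρ' : A → G) : Prop := ∀ σ, ∃ v x, ρ' σ = ρ σ * (D.s v * D.zz x)

end GB

/-- coordinates for the subgroup generated by `Ms`, and for the classes in `Ms` -/
structure GM (G : Type) [Group G] (Ms : Set G) (ι : Type) extends GB G where
  mem : ∀ g, g ∈ Subgroup.closure Ms ↔ ∃ v x, g = s v * zz x
  frat : ∀ H : Subgroup G, (∀ g, ∃ x, g * zz x ∈ H) → H = ⊤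
  /-- the vector of a class -/
  vc : ι → VV d
  /-- the central part of a class -/
  xr : ι → VV n
  cls : ∀ g, g ∈ Ms ↔ ∃ u h, g = s (vc u) * zz (xr u + c h (vc u))
  dst : ∀ u u' h, vc u = vc u' → xr u = xr u' + c h (vc u) → u = u'
  sq : ∀ u, β (vc u) (vc u) = 0
  nt : ∀ u, vc u = 0 → xr u ≠ 0
  spn : ∀ A : AddSubgroup (VV n), (∀ g u, c g (vc u) ∈ A) → A = ⊤

namespace GM

variable {G : Type} [Group G] {Ms : Set G} {ι : Type} (D : GM G Ms ι)

/-- the vectors of the classes -/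
abbrev Wu (u : ι) : Submodule (ZMod 2) (VV D.n) := D.W (D.vc u)

/-- `g` is in the class `u` -/
def In (u : ι) (g : G) : Prop := ∃ h, g = D.s (D.vc u) * D.zz (D.xr u + D.c h (D.vc u))

theorem mem_Ms {g : G} : g ∈ Ms ↔ ∃ u, D.In u g := D.cls g

theorem In.ne {u : ι} {g : G} (h : D.In u g) : g ≠ 1 := by
  obtain ⟨h, rfl⟩ := h
  intro h1
  obtain ⟨h2, h3⟩ := D.inj _ _ h1
  refine D.nt u h2 ?_
  rw [h2, D.c_zero, add_zero] at h3
  exact h3

theorem In.uniq {u u' : ι} {g : G} (h : D.In u g) (h' : D.In u' g) : u = u' := by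
  obtain ⟨a, rfl⟩ := h
  obtain ⟨b, hb⟩ := h'
  obtain ⟨h2, h3⟩ := D.sz_inj hb
  refine D.dst u u' (b * a) h2 ?_
  rw [D.c_mul, ← add_assoc]
  rw [← h2] at h3
  rw [← h3, add_assoc, GB.two_V, add_zero]

theorem wq : Wq D.Bd D.vc D.Wu := fun u w => D.B_mem_W w (D.vc u)

end GM

/-! ### cochains -/

section

variable {k : Type} [Field k] [NumberField k] {G : Type} [Group G]

/-- the cochains of the lifts of the twist of `ρ` by `a` -/
structure IsR (D : GB G) (ρ : Gm k →* G) (a : Gm k → VV D.d) (f : Gm k → VV D.n) : Prop where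
  lc : IsLocallyConstant f
  hom : ∀ σ τ, f (σ * τ) = f σ + f τ + D.β (a σ) (a τ) + D.c (ρ τ) (a σ)

/-- local lifts -/
def LcR (D : GB G) (ρ : Gm k →* G) (a : Gm k → VV D.d) (v : Pl k) : Prop :=
  ∃ f : Gm k → VV D.n, IsLocallyConstant f ∧ ∀ σ ∈ DecP v, ∀ τ ∈ DecP v,
    f (σ * τ) = f σ + f τ + D.β (a σ) (a τ) + D.c (ρ τ) (a σ)

open Classical in
/-- the homomorphism of a cochain -/
noncomputable def hm (D : GB G) (ρ : Gm k →* G) (a : Gm k → VV D.d) (f : Gm k → VV D.n) :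
    Gm k →* G :=
  if h : ∀ σ τ : Gm k, ρ (σ * τ) * (D.s (a (σ * τ)) * D.zz (f (σ * τ))) =
      ρ σ * (D.s (a σ) * D.zz (f σ)) * (ρ τ * (D.s (a τ) * D.zz (f τ)))
  then MonoidHom.mk' (fun σ => ρ σ * (D.s (a σ) * D.zz (f σ))) h else 1

omit [NumberField k] in
theorem IsR.mul {D : GB G} {ρ : Gm k →* G} {a : Gm k → VV D.d} {f : Gm k → VV D.n}
    (h : IsR D ρ a f) (ha : ∀ σ τ, a (σ * τ) = a σ + a τ) (σ τ : Gm k) :
    ρ (σ * τ) * (D.s (a (σ * τ)) * D.zz (f (σ * τ))) =
      ρ σ * (D.s (a σ) * D.zz (f σ)) * (ρ τ * (D.s (a τ) * D.zz (f τ))) := by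
  have h1 : D.s (a σ) * D.zz (f σ) * ρ τ = ρ τ * (D.s (a σ) * D.zz (D.c (ρ τ) (a σ) + f σ)) := by
    rw [mul_assoc, D.zz_cen, ← mul_assoc, D.com, D.zz_add]
    simp only [mul_assoc]
  have h2 : ρ σ * (D.s (a σ) * D.zz (f σ)) * (ρ τ * (D.s (a τ) * D.zz (f τ))) =
      ρ σ * (D.s (a σ) * D.zz (f σ) * ρ τ) * (D.s (a τ) * D.zz (f τ)) := by
    simp only [mul_assoc]
  rw [h2, h1, map_mul, ha, h.hom]
  have h3 : ρ σ * (ρ τ * (D.s (a σ) * D.zz (D.c (ρ τ) (a σ) + f σ))) *
      (D.s (a τ) * D.zz (f τ)) = ρ σ * ρ τ * (D.s (a σ) * D.zz (D.c (ρ τ) (a σ) + f σ) *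
        (D.s (a τ) * D.zz (f τ))) := by
    simp only [mul_assoc]
  rw [h3, D.mul_sz]
  congr 3
  abel

omit [NumberField k] in
theorem hm_apply {D : GB G} {ρ : Gm k →* G} {a : Gm k → VV D.d} {f : Gm k → VV D.n}
    (h : IsR D ρ a f) (ha : ∀ σ τ, a (σ * τ) = a σ + a τ) (σ : Gm k) :
    hm D ρ a f σ = ρ σ * (D.s (a σ) * D.zz (f σ)) := by
  unfold hm
  rw [dif_pos (h.mul ha)]
  rfl

end

/-! ### configurations -/

section

variable {k : Type} [Field k] [NumberField k] (F : Frm k) {G : Type} [Group G]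

open Classical in
/-- the parameters of a configuration: `y` are the unit coordinates, `X` the sets of primes -/
noncomputable def xo {d : ℕ} {ι : Type} [Fintype ι] (v : ι → VV d) (y : Fin F.sys.m → VV d)
    (X : ι → Finset F.sys.P) : F.I →₀ VV d :=
  ∑ j, Finsupp.single (Sum.inl j) (y j) +
    ∑ u, ∑ p ∈ X u, Finsupp.single (Sum.inr p) (v u)

/-- the subgroup generated by `I`, the lifts of `U` and the values of the twisted
homomorphism is the whole group -/
def Gn (D : GB G) (ρ : Gm k →* G) (a : Gm k → VV D.d) (U : Set (VV D.d)) : Prop :=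
  ∀ H : Subgroup G, (∀ x, D.zz x ∈ H) → (∀ w ∈ U, D.s w ∈ H) → (∀ σ, ρ σ * D.s (a σ) ∈ H) →
    H = ⊤

variable {Ms : Set G} {ι : Type}

/-- the predicate on the patterns -/
def Ph (D : GM G Ms ι) (ρ : Gm k →* G) (y : Fin F.sys.m → VV D.d) (U : Finset ι) : Prop :=
  Gn D.toGB ρ (F.parU y) {w | ∃ u ∈ U, D.vc u = w}

/-- the type characters: `ζ` composed with the commutator with `v` of the twisted homomorphism -/
structure Cy (D : GB G) (ρ : Gm k →* G) (y : Fin F.sys.m → VV D.d)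
    (c : VV D.d → VV D.n → F.sys.T) : Prop where
  eq : ∀ v ζ σ, ζ ⬝ᵥ (D.c (ρ σ) v + D.Bd.B (F.parU y σ) v) = ∑ j, c v ζ j * chi (F.u j : k) σ
  add : ∀ v ζ ζ', c v (ζ + ζ') = c v ζ + c v ζ'

/-- normal cochains: they vanish at the tame generators -/
structure IsN (Rk : RxF k) (D : GB G) (ρ : Gm k →* G) (a : Gm k → VV D.d) (f : Gm k → VV D.n) :
    Prop extends IsR D ρ a f where
  nor : ∀ p, f (Rk.tau (F.pl p)) = 0

/-- the homomorphisms of a coset with given ramification outside `S` -/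
def Ca (Rk : RxF k) (D : GM G Ms ι) (ρ : Gm k →* G) (H : (Gm k →* G) → Prop) (Y : ℝ) :
    Set (Gm k →* G) :=
  {ρ' | Function.Surjective ρ' ∧ IsLocallyConstant ρ' ∧ D.Sim ρ ρ' ∧ H ρ' ∧
    (∀ p, ρ' (Rk.tau (F.pl p)) = 1 ∨ ρ' (Rk.tau (F.pl p)) ∈ Ms) ∧
    ∃ c ∈ F.sys.bx Y, ∀ p, p ∈ c ↔ ρ' (Rk.tau (F.pl p)) ≠ 1}

end

end Pool.Agent.EW
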