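import Pool.Agent.EW.UStm
import Pool.Agent.EV.UCl

/-!
# Project T5 (MP_a3214d), even order: the classes of the outer characters (UX3, UX3b)
-/

set_option autoImplicit false

open scoped BigOperators
open NumberField IsDedekindDomain

namespace Pool.Agent.EW

open Pool.Agent.H98.MF
open Pool.Agent.H98.MK (sg)
open Pool.Agent.H32.MQ (El rep co)
open Pool.Agent.D8 (pat RxF ad)
open Pool.Agent.EV (VV BD xc Off ucl_parU_hom ucl_parU_lc ucl_parU_tau ucl_ex ucl_ad)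

/-- UX3 -/
theorem sucl (k : Type) [Field k] [NumberField k] : SUcl k := by
  intro F Rk G _ _ Ms ι _ D _ ρs M xs hU hX y
  have hlc : ∀ (u : ι) (ζ : VV D.n), IsLocallyConstant fun σ : Gm k =>
      ζ ⬝ᵥ (D.c (ρs σ) (D.vc u) + D.Bd.B (F.parU y σ + F.par xs σ) (D.vc u)) := by
    intro u ζ
    exact (hU.lc.prodMk ((ucl_parU_lc F y).prodMk (F.par_lc xs))).comp
      fun x : G × VV D.d × VV D.d => ζ ⬝ᵥ (D.c x.1 (D.vc u) + D.Bd.B (x.2.1 + x.2.2) (D.vc u))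
  have hadd : ∀ (u : ι) (ζ : VV D.n) (σ τ : Gm k),
      ζ ⬝ᵥ (D.c (ρs (σ * τ)) (D.vc u) +
        D.Bd.B (F.parU y (σ * τ) + F.par xs (σ * τ)) (D.vc u)) =
      ζ ⬝ᵥ (D.c (ρs σ) (D.vc u) + D.Bd.B (F.parU y σ + F.par xs σ) (D.vc u)) +
      ζ ⬝ᵥ (D.c (ρs τ) (D.vc u) + D.Bd.B (F.parU y τ + F.par xs τ) (D.vc u)) := by
    intro u ζ σ τ
    rw [← dotProduct_add, map_mul, D.c_mul, ucl_parU_hom, F.par_hom]
    congr 1
    simp only [map_add, LinearMap.add_apply]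
    abel
  choose c hc using fun (u : ι) (ζ : VV D.n) => ucl_ex F _ (hlc u ζ) (hadd u ζ)
  refine ⟨c, ?_, hc⟩
  intro u ζ p hp
  by_contra hM
  obtain ⟨x, hx⟩ := hX.out p hM
  have h1 := hc u ζ (Rk.tau (F.pl p))
  rw [Pool.Agent.D8.ct_chi_tau F Rk, if_pos hp, ucl_parU_tau, zero_add,
    F.par_tau Rk.toRx xs p, hx, D.c_mul, D.c_zz, add_zero, D.c_s', GB.two_V,
    dotProduct_zero] at h1
  exact one_ne_zero h1

section

variable {k : Type} [Field k] [NumberField k] (F : Frm k)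

private theorem ucl_rep0 (σ : Gm k) : chi (rep F ((0, ∅) : El F.sys) : k) σ = 0 := by
  have h1 : rep F ((0, ∅) : El F.sys) = 1 := by
    unfold rep
    rw [Finset.prod_empty, mul_one]
    refine Finset.prod_eq_one fun j _ => ?_
    show F.u j ^ (0 : ZMod 2).val = 1
    rw [ZMod.val_zero, pow_zero]
  rw [h1]
  exact Pool.Agent.H98.MF.M6a.chi_one σ

end

/-- UX3b -/
theorem suad (k : Type) [Field k] [NumberField k] : SUad k := by
  intro F G _ Ms ι _ D ρs M xs y c hc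
  refine ⟨?_, ?_⟩
  · intro u ζ ζ'
    apply Pool.Agent.D8.ct_rep_inj F
    intro σ
    rw [ucl_ad, hc.eq, hc.eq, hc.eq, add_dotProduct]
  · intro u ζ hζ
    apply Pool.Agent.D8.ct_rep_inj F
    intro σ
    rw [hc.eq, ucl_rep0 F]
    exact hζ _ ((D.Wu u).add_mem (D.mem_W.mpr ⟨ρs σ, rfl⟩) (D.B_mem_W _ _))

end Pool.Agent.EW
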