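import Pool.Agent.EW.UStm
import Pool.Agent.EV.UXs
import Pool.Agent.H98.MF.LhTauK
import Pool.Agent.H98.MF.ParK

/-!
# Project T5 (MP_a3214d), even order: coordinates of the homomorphisms congruent to a given one
-/

set_option autoImplicit false

open scoped BigOperators
open NumberField IsDedekindDomain

namespace Pool.Agent.EW

open Pool.Agent.H98.MF
open Pool.Agent.D8 (pat RxF)
open Pool.Agent.EV (VV BD xc Off)
open Pool.Agent.TF (OkM)

section

variable {k : Type} [Field k] [NumberField k] (F : Frm k)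

theorem uco_xo_inl {d : ℕ} {ι : Type} [Fintype ι] (w : ι → VV d) (y : Fin F.sys.m → VV d)
    (X : ι → Finset F.sys.P) (j : Fin F.sys.m) : xo F w y X (Sum.inl j) = y j := by
  classical
  unfold xo
  rw [Finsupp.add_apply, Finsupp.finsetSum_apply, Finsupp.finsetSum_apply]
  have h1 : ∑ u : ι, (∑ p ∈ X u, Finsupp.single (Sum.inr p : F.I) (w u)) (Sum.inl j) = 0 := by
    refine Finset.sum_eq_zero fun v _ => ?_
    rw [Finsupp.finsetSum_apply]
    refine Finset.sum_eq_zero fun p _ => ?_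
    exact Finsupp.single_eq_of_ne (by simp)
  rw [h1, add_zero, Finset.sum_eq_single j]
  · exact Finsupp.single_eq_same
  · intro i _ hij
    exact Finsupp.single_eq_of_ne fun h => hij (Sum.inl.inj h).symm
  · intro h
    exact absurd (Finset.mem_univ j) h

open Classical in
theorem uco_xo_inr {d : ℕ} {ι : Type} [Fintype ι] (w : ι → VV d) (y : Fin F.sys.m → VV d)
    (X : ι → Finset F.sys.P) (p : F.sys.P) :
    xo F w y X (Sum.inr p) = ∑ u : ι, if p ∈ X u then w u else 0 := by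
  unfold xo
  rw [Finsupp.add_apply, Finsupp.finsetSum_apply, Finsupp.finsetSum_apply]
  have h1 : ∑ j, (Finsupp.single (Sum.inl j : F.I) (y j)) (Sum.inr p) = 0 :=
    Finset.sum_eq_zero fun j _ => Finsupp.single_eq_of_ne (by simp)
  rw [h1, zero_add]
  refine Finset.sum_congr rfl fun v _ => ?_
  rw [Finsupp.finsetSum_apply]
  by_cases h : p ∈ X v
  · rw [if_pos h, Finset.sum_eq_single_of_mem p h]
    · exact Finsupp.single_eq_same
    · intro q _ hq
      exact Finsupp.single_eq_of_ne fun h => hq (Sum.inr.inj h).symm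
  · rw [if_neg h]
    refine Finset.sum_eq_zero fun q hq => ?_
    exact Finsupp.single_eq_of_ne fun h' => h (by rw [Sum.inr.inj h']; exact hq)

omit [NumberField k] in
/-- the decomposition of a homomorphism -/
theorem uco_dec {G : Type} [Group G] (D : GB G) {ρs ρ : Gm k →* G} (hs : IsLocallyConstant ρs)
    (hρ : IsLocallyConstant ρ) (h : D.Sim ρs ρ) :
    ∃ (a : Gm k → VV D.d) (f : Gm k → VV D.n), IsLocallyConstant a ∧ IsLocallyConstant f ∧
      (∀ σ, ρ σ = ρs σ * (D.s (a σ) * D.zz (f σ))) ∧ (∀ σ τ, a (σ * τ) = a σ + a τ) ∧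
      ∀ σ τ, f (σ * τ) = f σ + f τ + D.β (a σ) (a τ) + D.c (ρs τ) (a σ) := by
  classical
  obtain ⟨A, hA⟩ : ∃ A : G → VV D.d × VV D.n, ∀ v x, A (D.s v * D.zz x) = (v, x) := by
    refine ⟨fun g => if h : ∃ t : VV D.d × VV D.n, g = D.s t.1 * D.zz t.2 then h.choose else 0,
      fun v x => ?_⟩
    have h1 : ∃ t : VV D.d × VV D.n, D.s v * D.zz x = D.s t.1 * D.zz t.2 := ⟨(v, x), rfl⟩
    show dite _ _ _ = _
    rw [dif_pos h1]
    have h2 := D.sz_inj h1.choose_spec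
    exact Prod.ext h2.1.symm h2.2.symm
  have hlc : IsLocallyConstant fun σ => A ((ρs σ)⁻¹ * ρ σ) := hs.comp₂ hρ fun g g' => A (g⁻¹ * g')
  have hex : ∀ σ, ρ σ = ρs σ * (D.s (A ((ρs σ)⁻¹ * ρ σ)).1 * D.zz (A ((ρs σ)⁻¹ * ρ σ)).2) := by
    intro σ
    obtain ⟨v, x, hvx⟩ := h σ
    rw [hvx, inv_mul_cancel_left, hA]
  have hm : ∀ σ τ, (A ((ρs (σ * τ))⁻¹ * ρ (σ * τ))).1 =
      (A ((ρs σ)⁻¹ * ρ σ)).1 + (A ((ρs τ)⁻¹ * ρ τ)).1 ∧
      (A ((ρs (σ * τ))⁻¹ * ρ (σ * τ))).2 = D.c (ρs τ) (A ((ρs σ)⁻¹ * ρ σ)).1 +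
        (A ((ρs σ)⁻¹ * ρ σ)).2 + (A ((ρs τ)⁻¹ * ρ τ)).2 +
        D.β (A ((ρs σ)⁻¹ * ρ σ)).1 (A ((ρs τ)⁻¹ * ρ τ)).1 := by
    intro σ τ
    have e1 := hex σ
    have e2 := hex τ
    have e3 := hex (σ * τ)
    generalize A ((ρs σ)⁻¹ * ρ σ) = u at *
    generalize A ((ρs τ)⁻¹ * ρ τ) = w at *
    generalize A ((ρs (σ * τ))⁻¹ * ρ (σ * τ)) = t at *
    rw [map_mul ρ] at e3
    have h1 : D.s u.1 * D.zz u.2 * ρs τ = ρs τ * (D.s u.1 * D.zz (D.c (ρs τ) u.1 + u.2)) := by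
      rw [mul_assoc, D.zz_cen, ← mul_assoc, D.com, D.zz_add]
      simp only [mul_assoc]
    have h2 : ρs σ * (D.s u.1 * D.zz u.2) * (ρs τ * (D.s w.1 * D.zz w.2)) =
        ρs (σ * τ) * (D.s (u.1 + w.1) *
          D.zz (D.c (ρs τ) u.1 + u.2 + w.2 + D.β u.1 w.1)) := by
      have h3 : ρs σ * (D.s u.1 * D.zz u.2) * (ρs τ * (D.s w.1 * D.zz w.2)) =
          ρs σ * (D.s u.1 * D.zz u.2 * ρs τ) * (D.s w.1 * D.zz w.2) := by
        simp only [mul_assoc]
      rw [h3, h1, map_mul, ← D.mul_sz]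
      simp only [mul_assoc]
    rw [e1, e2, h2] at e3
    have h4 := D.sz_inj (mul_left_cancel e3)
    exact ⟨h4.1.symm, h4.2.symm⟩
  refine ⟨fun σ => (A ((ρs σ)⁻¹ * ρ σ)).1, fun σ => (A ((ρs σ)⁻¹ * ρ σ)).2,
    hlc.comp Prod.fst, hlc.comp Prod.snd, hex, fun σ τ => (hm σ τ).1, fun σ τ => ?_⟩
  show (A ((ρs (σ * τ))⁻¹ * ρ (σ * τ))).2 = _
  rw [(hm σ τ).2]
  abel

end

/-- UX2: coordinates -/
theorem suco (k : Type) [Field k] [NumberField k] : SUco k := by
  classical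
  intro F Rk G _ _ Ms ι _ D hG ρs M xs hs hx ρ hρ
  obtain ⟨a, f, ha, hf, hρσ, hadd, hfd⟩ := uco_dec D.toGB hs.lc hρ.lc hρ.sim
  obtain ⟨x0, hx0⟩ := F.par_exists a ha hadd
  subst hx0
  have hfin := Pool.Agent.EV.uxs_fin F Rk hG ρ hρ.lc
  set z : F.I →₀ VV D.d := x0 + xs with hz
  have hat : ∀ p, F.par x0 (Rk.tau (F.pl p)) = x0 (Sum.inr p) := fun p =>
    F.par_tau Rk.toRx x0 p
  -- the primes of `M`
  have hM : ∀ p ∈ M, x0 (Sum.inr p) = 0 := by
    intro p hp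
    have h1 := hρσ (Rk.tau (F.pl p))
    rw [hρ.inM p hp, hat] at h1
    have h2 := D.inj _ _ (left_eq_mul.1 h1)
    exact h2.1
  -- the other primes
  have hO : ∀ p, p ∉ M → ∃ x, ρ (Rk.tau (F.pl p)) = D.s (z (Sum.inr p)) * D.zz x := by
    intro p hp
    obtain ⟨x', hx'⟩ := hx.out p hp
    have h1 := hρσ (Rk.tau (F.pl p))
    rw [hat, hx', D.mul_sz] at h1
    refine ⟨x' + f (Rk.tau (F.pl p)) + D.β (xs (Sum.inr p)) (x0 (Sum.inr p)), ?_⟩
    rw [h1, hz, Finsupp.add_apply, add_comm (x0 (Sum.inr p))]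
  have hR : ∀ p, p ∉ M → (z (Sum.inr p) = 0 ∧ ρ (Rk.tau (F.pl p)) = 1) ∨
      ∃ u, D.In u (ρ (Rk.tau (F.pl p))) := by
    intro p hp
    rcases hρ.out p hp with h1 | h1
    · left
      obtain ⟨x, hx1⟩ := hO p hp
      rw [h1] at hx1
      exact ⟨(D.inj _ _ hx1.symm).1, h1⟩
    · right
      exact D.mem_Ms.1 h1
  have hV : ∀ p, p ∉ M → ∀ u, D.In u (ρ (Rk.tau (F.pl p))) → z (Sum.inr p) = D.vc u := by
    intro p hp u hu
    obtain ⟨x, hx1⟩ := hO p hp
    obtain ⟨h, hh⟩ := hu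
    rw [hx1] at hh
    exact (D.sz_inj hh).1
  set X : ι → Finset F.sys.P := fun u =>
    hfin.toFinset.filter fun p => p ∉ M ∧ D.In u (ρ (Rk.tau (F.pl p))) with hX
  have hmX : ∀ (u : ι) (p : F.sys.P), p ∈ X u ↔ p ∉ M ∧ D.In u (ρ (Rk.tau (F.pl p))) := by
    intro u p
    rw [hX, Finset.mem_filter, Set.Finite.mem_toFinset]
    constructor
    · exact fun h => h.2
    · intro h
      exact ⟨GM.In.ne D h.2, h⟩
  have h0 : xo F D.vc (fun j => x0 (Sum.inl j)) X + xs = x0 := by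
    ext1 i
    rcases i with j | p
    · rw [Finsupp.add_apply, uco_xo_inl, hx.unit j, add_zero]
    · rw [Finsupp.add_apply, uco_xo_inr]
      by_cases hp : p ∈ M
      · rw [hx.inM p hp, hM p hp, add_zero]
        exact Finset.sum_eq_zero fun v _ => if_neg fun h => ((hmX v p).1 h).1 hp
      · have e1 : (∑ u : ι, if p ∈ X u then D.vc u else 0) = z (Sum.inr p) := by
          rcases hR p hp with ⟨h, h'⟩ | ⟨u, hu⟩
          · rw [h]
            refine Finset.sum_eq_zero fun v _ => if_neg fun h1 => ?_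
            exact GM.In.ne D ((hmX v p).1 h1).2 h'
          · rw [Finset.sum_eq_single u]
            · rw [if_pos ((hmX _ p).2 ⟨hp, hu⟩), hV p hp u hu]
            · intro v _ hv
              refine if_neg fun h1 => hv ?_
              exact ((hmX v p).1 h1).2.uniq _ hu
            · intro h1
              exact absurd (Finset.mem_univ _) h1
        rw [e1, hz, Finsupp.add_apply, add_assoc, GB.two_V, add_zero]
  refine ⟨fun j => x0 (Sum.inl j), X, f, ?_, ?_, ?_, ?_, ?_⟩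
  · intro v w hvw
    rw [Finset.disjoint_left]
    intro p hp hp'
    exact hvw (((hmX v p).1 hp).2.uniq _ ((hmX w p).1 hp').2)
  · intro v
    rw [Finset.disjoint_left]
    intro p hp
    exact ((hmX v p).1 hp).1
  · rw [h0]
    exact ⟨hf, hfd⟩
  · rw [h0]
    exact hρσ
  · exact hmX

end Pool.Agent.EW
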