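import Pool.Agent.EW.UStm
import Pool.Agent.EV.UFin

/-!
# Project T5 (MP_a3214d), even order: the uniform inner statement, assembly
-/

set_option autoImplicit false

open scoped BigOperators
open NumberField IsDedekindDomain

namespace Pool.Agent.EW

open Pool.Agent.H98.MF
open Pool.Agent.H98.ML (norb m3_norb_lt)
open Pool.Agent.H32.MQ (El rep co)
open Pool.Agent.D8 (pat RxF)
open Pool.Agent.EV (VV BD xc Off atm_odd rk_of uf_ram)
open Pool.Agent.TF (OkM HypM Mcl InnU5 Cg5)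
open Pool.Agent.H92.EL (TM Ctn Hk nO)

theorem ufn_normal {G : Type} [Group G] {Ms : Set G} {ι : Type} (D : GM G Ms ι) :
    (Subgroup.closure Ms).Normal := by
  refine ⟨fun x hx g => ?_⟩
  obtain ⟨v, y, rfl⟩ := (D.mem x).1 hx
  rw [D.mem]
  refine ⟨v, y + D.c g⁻¹ v, ?_⟩
  have h1 := D.com g⁻¹ v
  have h2 : g * (D.s v * g⁻¹) = D.s v * D.zz (D.c g⁻¹ v) := by
    rw [h1, ← mul_assoc, mul_inv_cancel, one_mul]
  calc g * (D.s v * D.zz y) * g⁻¹ = g * (D.s v * (D.zz y * g⁻¹)) := by simp only [mul_assoc]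
    _ = g * (D.s v * (g⁻¹ * D.zz y)) := by rw [D.zz_cen]
    _ = g * (D.s v * g⁻¹) * D.zz y := by simp only [mul_assoc]
    _ = D.s v * D.zz (D.c g⁻¹ v) * D.zz y := by rw [h2]
    _ = D.s v * D.zz (y + D.c g⁻¹ v) := by
      rw [mul_assoc, ← D.zz_add, add_comm]

/-! ### the assembly -/

theorem sinnU (k : Type) [Field k] [NumberField k] (hxs : SUxs k) (hco : SUco k)
    (hcl : SUcl k) (had : SUad k) (hok : SUok k) (hph : SUph k) (hnc : SUnc k) (hu : SUnfq) :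
    SInnU k := by
  classical
  intro T G _ _ Ms ι _ _ D hG
  obtain ⟨F⟩ := exists_frm k
  obtain ⟨Rk, hτ, -⟩ := rk_of T
  refine ⟨F.S, ?_, fun ε hε => ?_⟩
  · intro P hP
    obtain ⟨p, rfl⟩ := (F.pl_iff P).2 hP
    have : Fact (Nat.Prime 2) := ⟨Nat.prime_two⟩
    obtain ⟨j, hj⟩ := IsPGroup.iff_card.1 hG
    rw [hj]
    exact Nat.Coprime.pow_left j (atm_odd (F.pl p) (F.ltk_two p))
  obtain ⟨C, hC, hbd⟩ := hu F.sys D.d D.n D.Bd ι D.vc D.Wu ε hε D.wq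
  let K : ℝ := ((Fintype.card (Fin F.sys.m → VV D.d) : ℕ) : ℝ) * ((2 : ℝ) ^ D.n) ^ F.sys.m * C
  refine ⟨K, by positivity, fun R hR ρ0 hρ0 u Y hY => ?_⟩
  have hYl : 0 ≤ Y * Real.log Y ^ (Fintype.card ι - 1) :=
    mul_nonneg (by linarith) (pow_nonneg (Real.log_nonneg (by linarith)) _)
  have hRS : ∀ P ∈ R, P ∉ F.S := fun P hP hP' => Finset.disjoint_left.1 hR hP hP'
  let M : Finset F.sys.P := R.preimage F.pl F.pl_inj.injOn
  have hM : ∀ p, p ∈ M ↔ F.pl p ∈ R := fun p => Finset.mem_preimage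
  have hnm : F.sys.nm M = ∏ P ∈ R, nrm P := by
    have h1 : R = M.image F.pl := by
      ext P
      rw [Finset.mem_image]
      constructor
      · intro hP
        obtain ⟨p, rfl⟩ := (F.pl_iff P).2 (hRS P hP)
        exact ⟨p, (hM p).2 hP, rfl⟩
      · rintro ⟨p, hp, rfl⟩
        exact (hM p).1 hp
    rw [h1, Finset.prod_image fun x _ y _ h => F.pl_inj h]
    unfold Pre.nm
    exact Finset.prod_congr rfl fun p _ => F.N_eq p
  set A : Set (Gm k →* G) := {ρ : Gm k →* G | ρ ∈ Hk k G ∧ Cg5 Ms ρ ρ0 ∧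
    (∀ P ∈ R, ρ (T.tau P) = u P) ∧ (∀ P, P ∉ F.S → P ∉ R → OkM Ms (ρ (T.tau P))) ∧
    (nO T (F.S ∪ R) ρ : ℝ) ≤ Y} with hA
  rcases Set.eq_empty_or_nonempty A with hAe | ⟨ρs, hρs⟩
  · rw [hAe, Set.ncard_empty, Nat.cast_zero]
    exact mul_nonneg (mul_nonneg (by positivity) (Real.rpow_nonneg (by positivity) _)) hYl
  have hUA : ∀ ρ ∈ A, UA F Rk D ρs M ρ := by
    intro ρ hρ
    refine ⟨hρ.1.1, hρ.1.2, fun σ => ?_, fun p hp => ?_, fun p hp => ?_⟩
    · have h1 : (ρs σ)⁻¹ * ((ρ σ * (ρ0 σ)⁻¹) * (ρs σ * (ρ0 σ)⁻¹)⁻¹) * ((ρs σ)⁻¹)⁻¹ ∈ Subgroup.closure Ms :=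
        (ufn_normal D).conj_mem _
          (Subgroup.mul_mem _ (hρ.2.1 σ) (Subgroup.inv_mem _ (hρs.2.1 σ))) _
      obtain ⟨v, x, h3⟩ := (D.mem _).1 h1
      refine ⟨v, x, ?_⟩
      rw [← h3]
      group
    · rw [hτ, hρ.2.2.1 _ ((hM p).1 hp), hρs.2.2.1 _ ((hM p).1 hp)]
    · rw [hτ]
      exact hρ.2.2.2.1 _ (F.ltk_notMem p) fun h => hp ((hM p).2 h)
  obtain ⟨xs, hx⟩ := hxs F Rk G Ms ι D hG ρs M (hUA ρs hρs)
  have hc := hcl F Rk G Ms ι D hG ρs M xs (hUA ρs hρs) hx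
  choose c hc using hc
  have hcount : ∀ y, (US F Rk D ρs M xs y Y).Finite ∧ ((US F Rk D ρs M xs y Y).ncard : ℝ) ≤
      ((2 : ℝ) ^ D.n) ^ F.sys.m * (C * (F.sys.nm M : ℝ) ^ ε * (Y * Real.log Y ^ (Fintype.card ι - 1))) := by
    intro y
    by_cases hne : ∃ ρ X f, UA F Rk D ρs M ρ ∧ UC F Rk D ρs M xs y X f ρ
    · obtain ⟨ρ1, X1, f1, h1, h1'⟩ := hne
      have h3 := hnc F Rk G Ms ι D hG ρs M xs y (c y) (Pq D.Bd D.vc D.Wu (c y)) hx
        (fun ρ X f h h' => ⟨hok F Rk G Ms ι D hG ρs M xs y (c y) (hc y) ρ X f h h',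
          hph F Rk G Ms ι D ρs M xs y (c y) (hc y) ρ X f h h'⟩) Y (by linarith)
      refine ⟨h3.1, h3.2.trans (mul_le_mul_of_nonneg_left ?_ (by positivity))⟩
      exact hbd (c y) M (Pq D.Bd D.vc D.Wu (c y)) (had F G Ms ι D ρs M xs y (c y) (hc y))
        (hc y).sub (fun U h => h) Y hY
    · have h3 : US F Rk D ρs M xs y Y = ∅ := by
        rw [Set.eq_empty_iff_forall_notMem]
        rintro ρ ⟨h4, ⟨X, f, h5⟩, -⟩
        exact hne ⟨ρ, X, f, h4, h5⟩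
      rw [h3, Set.ncard_empty, Nat.cast_zero]
      exact ⟨Set.finite_empty, mul_nonneg (by positivity)
        (mul_nonneg (mul_nonneg hC (Real.rpow_nonneg (by positivity) _)) hYl)⟩
  have hsub : A ⊆ ⋃ y : Fin F.sys.m → VV D.d, US F Rk D ρs M xs y Y := by
    intro ρ hρ
    obtain ⟨y, X, f, hUC⟩ := hco F Rk G Ms ι D hG ρs M xs (hUA ρs hρs) hx ρ (hUA ρ hρ)
    rw [Set.mem_iUnion]
    have hfin : {p : F.sys.P | p ∉ M ∧ ρ (Rk.tau (F.pl p)) ≠ 1}.Finite :=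
      (uf_ram F Rk hG ρ hρ.1.2).subset fun p hp => hp.2
    refine ⟨y, hUA ρ hρ, ⟨X, f, hUC⟩, hfin.toFinset, fun p => by
      rw [Set.Finite.mem_toFinset]; rfl, ?_⟩
    have h3 : nO T (F.S ∪ R) ρ = F.sys.nm hfin.toFinset := by
      unfold nO
      have h4 : {P : HeightOneSpectrum (𝓞 k) | P ∉ F.S ∪ R ∧ ρ (T.tau P) ≠ 1} =
          ((hfin.toFinset.image F.pl : Finset (HeightOneSpectrum (𝓞 k))) :
            Set (HeightOneSpectrum (𝓞 k))) := by
        ext P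
        rw [Finset.mem_coe, Finset.mem_image, Set.mem_setOf_eq, Finset.mem_union, not_or]
        constructor
        · rintro ⟨⟨hP1, hP2⟩, hP3⟩
          obtain ⟨p, rfl⟩ := (F.pl_iff P).2 hP1
          refine ⟨p, ?_, rfl⟩
          rw [Set.Finite.mem_toFinset]
          refine ⟨fun h => hP2 ((hM p).1 h), ?_⟩
          rw [hτ]
          exact hP3
        · rintro ⟨p, hp, rfl⟩
          rw [Set.Finite.mem_toFinset] at hp
          have hp2 := hp.2
          rw [hτ] at hp2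
          exact ⟨⟨F.ltk_notMem p, fun h => hp.1 ((hM p).2 h)⟩, hp2⟩
      rw [h4, finprod_mem_coe_finset, Finset.prod_image fun x _ y _ h => F.pl_inj h]
      unfold Pre.nm
      exact Finset.prod_congr rfl fun p _ => (F.N_eq p).symm
    rw [← h3]
    exact hρ.2.2.2.2
  have hfinU : (⋃ y : Fin F.sys.m → VV D.d, US F Rk D ρs M xs y Y).Finite :=
    Set.finite_iUnion fun y => (hcount y).1
  have h3 : (A.ncard : ℝ) ≤ ∑ y : Fin F.sys.m → VV D.d,
      ((US F Rk D ρs M xs y Y).ncard : ℝ) := by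
    have h4 : A.ncard ≤ (⋃ y : Fin F.sys.m → VV D.d, US F Rk D ρs M xs y Y).ncard :=
      Set.ncard_le_ncard hsub hfinU
    have h5 : (⋃ y : Fin F.sys.m → VV D.d, US F Rk D ρs M xs y Y).ncard ≤
        ∑ y : Fin F.sys.m → VV D.d, (US F Rk D ρs M xs y Y).ncard := by
      have h6 : (⋃ y : Fin F.sys.m → VV D.d, US F Rk D ρs M xs y Y) =
          ((Finset.univ.biUnion fun y : Fin F.sys.m → VV D.d =>
            (hcount y).1.toFinset : Finset (Gm k →* G)) : Set (Gm k →* G)) := by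
        ext ρ
        simp
      rw [h6, Set.ncard_coe_finset]
      refine Finset.card_biUnion_le.trans (Finset.sum_le_sum fun y _ => ?_)
      exact (Set.ncard_eq_toFinset_card _ (hcount y).1).ge
    exact_mod_cast h4.trans h5
  refine h3.trans ((Finset.sum_le_sum fun y _ => (hcount y).2).trans ?_)
  rw [Finset.sum_const, Finset.card_univ, nsmul_eq_mul, ← hnm]
  apply le_of_eq
  simp only [K]
  ring

end Pool.Agent.EW
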