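import Pool.Agent.EW.UStm
import Pool.Agent.H98.MF.ParK
import Pool.Agent.H98.MF.LhTauK

/-!
# Project T5 (MP_a3214d), even order, row UX6: the number of homomorphisms
-/

set_option autoImplicit false

open scoped BigOperators
open NumberField IsDedekindDomain

namespace Pool.Agent.EW

open Pool.Agent.H98.MF
open Pool.Agent.H98.MK (sg)
open Pool.Agent.H32.MQ (El rep co)
open Pool.Agent.D8 (pat RxF)
open Pool.Agent.EV (VV BD xc Off un)
open Pool.Agent.TF (OkM)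

section

variable {k : Type} [Field k] [NumberField k] {F : Frm k} {Rk : RxF k} {G : Type} [Group G]
  {Ms : Set G} {ι : Type} [Fintype ι]
  {D : GM G Ms ι} {ρs : Gm k →* G} {M : Finset F.sys.P} {xs : F.I →₀ VV D.d}
  {y : Fin F.sys.m → VV D.d} {X : ι → Finset F.sys.P} {f : Gm k → VV D.n} {ρ : Gm k →* G}

theorem ux6_mem_un {κ : Type} [Fintype κ] {S : Sys} {x : κ → Finset S.P} {p : S.P} :
    p ∈ un x ↔ ∃ u, p ∈ x u := by
  classical
  unfold un
  rw [Finset.mem_biUnion]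
  exact ⟨fun ⟨u, _, h⟩ => ⟨u, h⟩, fun ⟨u, h⟩ => ⟨u, Finset.mem_univ u, h⟩⟩

/-- the values at the primes outside the sets of a homomorphism -/
theorem ux6_val (hA : UA F Rk D ρs M ρ) (hC : UC F Rk D ρs M xs y X f ρ) {p : F.sys.P}
    (hp : p ∉ M) (hX : p ∉ un X) : ρ (Rk.tau (F.pl p)) = 1 := by
  rcases hA.out p hp with h | h
  · exact h
  · exfalso
    obtain ⟨u, hu⟩ := D.mem_Ms.1 h
    exact hX (ux6_mem_un.2 ⟨u, (hC.mem u p).2 ⟨hp, hu⟩⟩)

/-- the primes in the sets are ramified -/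
theorem ux6_ram (hC : UC F Rk D ρs M xs y X f ρ) {p : F.sys.P} (hX : p ∈ un X) :
    p ∉ M ∧ ρ (Rk.tau (F.pl p)) ≠ 1 := by
  obtain ⟨v, hv⟩ := ux6_mem_un.1 hX
  obtain ⟨h1, h2⟩ := (hC.mem v p).1 hv
  exact ⟨h1, GM.In.ne D h2⟩

/-- the difference of two homomorphisms with the same coordinates -/
theorem ux6_dif {ρ' : Gm k →* G} {f' : Gm k → VV D.n} (hC : UC F Rk D ρs M xs y X f ρ)
    (hC' : UC F Rk D ρs M xs y X f' ρ') :
    ∃ z : F.I →₀ VV D.n, ∀ σ, ρ σ = ρ' σ * D.zz (F.par z σ) := by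
  have hadd : ∀ σ τ, (fun σ => f σ + f' σ) (σ * τ) = (fun σ => f σ + f' σ) σ +
      (fun σ => f σ + f' σ) τ := by
    intro σ τ
    have h1 := hC.isr.hom σ τ
    have h2 := hC'.isr.hom σ τ
    show f (σ * τ) + f' (σ * τ) = f σ + f' σ + (f τ + f' τ)
    rw [h1, h2]
    have h3 := GB.two_V (D.β (F.par (xo F D.vc y X + xs) σ) (F.par (xo F D.vc y X + xs) τ))
    have h4 := GB.two_V (D.c (ρs τ) (F.par (xo F D.vc y X + xs) σ))
    have e : f σ + f τ + D.β (F.par (xo F D.vc y X + xs) σ) (F.par (xo F D.vc y X + xs) τ) +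
        D.c (ρs τ) (F.par (xo F D.vc y X + xs) σ) +
        (f' σ + f' τ + D.β (F.par (xo F D.vc y X + xs) σ) (F.par (xo F D.vc y X + xs) τ) +
        D.c (ρs τ) (F.par (xo F D.vc y X + xs) σ)) = f σ + f' σ + (f τ + f' τ) +
        (D.β (F.par (xo F D.vc y X + xs) σ) (F.par (xo F D.vc y X + xs) τ) +
          D.β (F.par (xo F D.vc y X + xs) σ) (F.par (xo F D.vc y X + xs) τ)) +
        (D.c (ρs τ) (F.par (xo F D.vc y X + xs) σ) +
          D.c (ρs τ) (F.par (xo F D.vc y X + xs) σ)) := by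
      abel
    rw [e, h3, h4, add_zero, add_zero]
  obtain ⟨z, hz⟩ := F.par_exists (fun σ => f σ + f' σ) (hC.isr.lc.add hC'.isr.lc) hadd
  refine ⟨z, fun σ => ?_⟩
  rw [← hz, hC.eq, hC'.eq, mul_assoc, mul_assoc, ← D.zz_add]
  congr 3
  show f σ = f' σ + (f σ + f' σ)
  have e : f' σ + (f σ + f' σ) = f σ + (f' σ + f' σ) := by abel
  rw [e, GB.two_V, add_zero]

theorem ux6_nm {κ : Type} [Fintype κ] {S : Sys} {x : κ → Finset S.P} (h : S.Dj x) :
    S.nm (un x) = ∏ u, S.nm (x u) := by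
  classical
  unfold un
  exact S.nm_biUnion Finset.univ x fun i _ j _ hij => h i j hij

/-- two elements of a class differ by a commutator -/
theorem ux6_cls {u : ι} {g g' : G} {z : VV D.n} (h : D.In u g) (h' : D.In u g')
    (e : g = g' * D.zz z) : z ∈ D.Wu u := by
  obtain ⟨a, rfl⟩ := h
  obtain ⟨b, rfl⟩ := h'
  rw [mul_assoc, ← D.zz_add] at e
  have h1 := (D.sz_inj e).2
  refine D.mem_W.2 ⟨b * a, ?_⟩
  rw [D.c_mul]
  have h2 : D.c a (D.vc u) = D.c b (D.vc u) + z := by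
    have h3 : D.xr u + D.c a (D.vc u) = D.xr u + (D.c b (D.vc u) + z) := by
      rw [h1]
      abel
    exact add_left_cancel h3
  rw [h2, ← add_assoc, GB.two_V, zero_add]

end

theorem sunc (k : Type) [Field k] [NumberField k] : SUnc k := by
  classical
  intro F Rk G _ _ Ms ι _ D _ ρs M xs y c Φ _ hok Y hY
  have hYp : 0 < Y := by linarith
  -- choices
  have hch : ∀ ρ : Gm k →* G, ∃ (X : ι → Finset F.sys.P) (f : Gm k → VV D.n)
      (A : Finset F.sys.P), ρ ∈ US F Rk D ρs M xs y Y → UC F Rk D ρs M xs y X f ρ ∧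
        (∀ p, p ∈ A ↔ (p ∉ M ∧ ρ (Rk.tau (F.pl p)) ≠ 1)) ∧ (F.sys.nm A : ℝ) ≤ Y := by
    intro ρ
    by_cases h : ρ ∈ US F Rk D ρs M xs y Y
    · obtain ⟨_, ⟨X, f, h1⟩, A, h2, h3⟩ := h
      exact ⟨X, f, A, fun _ => ⟨h1, h2, h3⟩⟩
    · exact ⟨fun _ => ∅, fun _ => 0, ∅, fun h' => absurd h' h⟩
  choose X f A hX using hch
  have hb : ∀ X0 : ι → Finset F.sys.P, ∃ β : Gm k →* G,
      (∃ ρ ∈ US F Rk D ρs M xs y Y, X ρ = X0) → β ∈ US F Rk D ρs M xs y Y ∧ X β = X0 := by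
    intro X0
    by_cases h : ∃ ρ ∈ US F Rk D ρs M xs y Y, X ρ = X0
    · obtain ⟨ρ, h1, h2⟩ := h
      exact ⟨ρ, fun _ => ⟨h1, h2⟩⟩
    · exact ⟨1, fun h' => absurd h' h⟩
  choose β hβ using hb
  have hbr : ∀ ρ ∈ US F Rk D ρs M xs y Y, β (X ρ) ∈ US F Rk D ρs M xs y Y ∧
      X (β (X ρ)) = X ρ := fun ρ hρ => hβ (X ρ) ⟨ρ, hρ, rfl⟩
  have hbC : ∀ ρ ∈ US F Rk D ρs M xs y Y, UC F Rk D ρs M xs y (X ρ) (f (β (X ρ))) (β (X ρ)) := by
    intro ρ hρ
    have h2 := (hX _ (hbr ρ hρ).1).1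
    rwa [(hbr ρ hρ).2] at h2
  have hzz : ∀ ρ : Gm k →* G, ∃ z : F.I →₀ VV D.n, ρ ∈ US F Rk D ρs M xs y Y →
      ∀ σ, ρ σ = β (X ρ) σ * D.zz (F.par z σ) := by
    intro ρ
    by_cases h : ρ ∈ US F Rk D ρs M xs y Y
    · obtain ⟨z, hz⟩ := ux6_dif (hX ρ h).1 (hbC ρ h)
      exact ⟨z, fun _ => hz⟩
    · exact ⟨0, fun h' => absurd h' h⟩
  choose z hz using hzz
  -- the values of the coordinates at the primes
  have hzp : ∀ ρ ∈ US F Rk D ρs M xs y Y, ∀ p : F.sys.P,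
      ρ (Rk.tau (F.pl p)) = β (X ρ) (Rk.tau (F.pl p)) * D.zz (z ρ (Sum.inr p)) := by
    intro ρ hρ p
    rw [hz ρ hρ, F.par_tau Rk.toRx]
  have hz1 : ∀ (g : G) (x : VV D.n), g = g * D.zz x → x = 0 := by
    intro g x h1
    have h2 : D.zz x = D.zz 0 := by
      rw [D.zz_zero]
      exact left_eq_mul.1 h1
    exact D.zz_inj h2
  have hzM : ∀ ρ ∈ US F Rk D ρs M xs y Y, ∀ p, p ∉ un (X ρ) → z ρ (Sum.inr p) = 0 := by
    intro ρ hρ p hpX
    have h1 := hzp ρ hρ p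
    by_cases hp : p ∈ M
    · rw [hρ.1.inM p hp, (hbr ρ hρ).1.1.inM p hp] at h1
      exact hz1 _ _ h1
    · rw [ux6_val hρ.1 (hX ρ hρ).1 hp hpX, ux6_val (hbr ρ hρ).1.1 (hbC ρ hρ) hp hpX] at h1
      exact hz1 _ _ h1
  have hzW : ∀ ρ ∈ US F Rk D ρs M xs y Y, ∀ u, ∀ p ∈ X ρ u, z ρ (Sum.inr p) ∈ D.Wu u := by
    intro ρ hρ u p hp
    exact ux6_cls (((hX ρ hρ).1.mem u p).1 hp).2 (((hbC ρ hρ).mem u p).1 hp).2 (hzp ρ hρ p)
  -- the coordinates
  let g : (Gm k →* G) → (F.sys.P →₀ VV D.n) := fun ρ =>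
    Finsupp.onFinset (un (X ρ)) (fun p => if p ∈ un (X ρ) then z ρ (Sum.inr p) else 0)
      (fun p hp => by
        by_contra h
        rw [if_neg h] at hp
        exact hp rfl)
  let Ψ : (Gm k →* G) → (Σ _ : (ι → Finset F.sys.P),
      (Fin F.sys.m → VV D.n) × (F.sys.P →₀ VV D.n)) :=
    fun ρ => ⟨X ρ, (fun j => z ρ (Sum.inl j), g ρ)⟩
  let AA : Finset (ι → Finset F.sys.P) :=
    (Fintype.piFinset (fun _ : ι => F.sys.bx Y)).filter fun x =>
      F.sys.Dj x ∧ Off F.sys M x ∧ okq D.Bd D.vc c x ∧ Φ (pat x) ∧ True ∧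
        ((∏ u, F.sys.nm (x u) : ℕ) : ℝ) ≤ Y
  let tt : (ι → Finset F.sys.P) → F.sys.P → Finset (VV D.n) := fun x p =>
    Finset.univ.filter fun v => ∀ u, p ∈ x u → v ∈ D.Wu u
  let TT := AA.sigma fun x =>
    (Finset.univ : Finset (Fin F.sys.m → VV D.n)) ×ˢ (un x).finsupp (tt x)
  -- the image
  have hmaps : ∀ ρ ∈ US F Rk D ρs M xs y Y, Ψ ρ ∈ (TT : Set _) := by
    intro ρ hρ
    obtain ⟨hC, hAm, hAY⟩ := hX ρ hρ
    have hXA : un (X ρ) ⊆ A ρ := fun p hp => (hAm p).2 (ux6_ram hC hp)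
    have hXY : ((∏ u, F.sys.nm (X ρ u) : ℕ) : ℝ) ≤ Y := by
      refine le_trans ?_ hAY
      have h1 : F.sys.nm (un (X ρ)) ≤ F.sys.nm (A ρ) := F.sys.nm_mono hXA
      rw [ux6_nm hC.dj] at h1
      exact_mod_cast h1
    rw [Finset.mem_coe, Finset.mem_sigma]
    refine ⟨Finset.mem_filter.2 ⟨Fintype.mem_piFinset.2 fun v => ?_, hC.dj, hC.off,
      (hok ρ _ _ hρ.1 hC).1, (hok ρ _ _ hρ.1 hC).2, trivial, hXY⟩, ?_⟩
    · rw [F.sys.mem_bx]
      refine le_trans ?_ hAY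
      have h1 : F.sys.nm (X ρ v) ≤ F.sys.nm (A ρ) :=
        F.sys.nm_mono (fun p hp => hXA (ux6_mem_un.2 ⟨v, hp⟩))
      exact_mod_cast h1
    · rw [Finset.mem_product]
      refine ⟨Finset.mem_univ _, ?_⟩
      show g ρ ∈ (un (X ρ)).finsupp (tt (X ρ))
      rw [Finset.mem_finsupp_iff]
      refine ⟨Finsupp.support_onFinset_subset, fun p hp => ?_⟩
      have h2 : g ρ p = z ρ (Sum.inr p) := if_pos hp
      rw [h2]
      exact Finset.mem_filter.2 ⟨Finset.mem_univ _, fun u hu => hzW ρ hρ u p hu⟩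
  -- injectivity
  have hinj : Set.InjOn Ψ (US F Rk D ρs M xs y Y) := by
    intro ρ hρ ρ' hρ' he
    have e1 : X ρ = X ρ' := congrArg Sigma.fst he
    have e2 : (fun j => z ρ (Sum.inl j), g ρ) = (fun j => z ρ' (Sum.inl j), g ρ') := by
      have := Sigma.mk.inj he
      exact eq_of_heq this.2
    have e3 : (fun j => z ρ (Sum.inl j)) = (fun j => z ρ' (Sum.inl j)) := congrArg Prod.fst e2
    have e4 : g ρ = g ρ' := congrArg Prod.snd e2
    have hzeq : z ρ = z ρ' := by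
      refine Finsupp.ext fun i => ?_
      rcases i with j | p
      · exact congrFun e3 j
      · by_cases hpX : p ∈ un (X ρ)
        · have h1 := DFunLike.congr_fun e4 p
          have h2 : g ρ p = z ρ (Sum.inr p) := if_pos hpX
          have h3 : g ρ' p = z ρ' (Sum.inr p) := if_pos (e1 ▸ hpX)
          rw [h2, h3] at h1
          exact h1
        · rw [hzM ρ hρ p hpX, hzM ρ' hρ' p (e1 ▸ hpX)]
    refine MonoidHom.ext fun σ => ?_
    rw [hz ρ hρ, hz ρ' hρ', hzeq, e1]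
  have hfin : (US F Rk D ρs M xs y Y).Finite :=
    Set.Finite.of_finite_image ((Finset.finite_toSet TT).subset
      (Set.image_subset_iff.2 hmaps)) hinj
  refine ⟨hfin, ?_⟩
  have hcard : (US F Rk D ρs M xs y Y).ncard ≤ TT.card := by
    have h1 := Set.ncard_le_ncard_of_injOn Ψ hmaps hinj (Finset.finite_toSet TT)
    rwa [Set.ncard_coe_finset] at h1
  have hcr : ((US F Rk D ρs M xs y Y).ncard : ℝ) ≤ (TT.card : ℝ) := by exact_mod_cast hcard
  refine hcr.trans (le_of_eq ?_)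
  -- the number of restrictions
  have htt : ∀ x ∈ AA, ((un x).finsupp (tt x)).card = ∏ u, Nat.card (D.Wu u) ^ (x u).card := by
    intro x hx
    have hdj : F.sys.Dj x := (Finset.mem_filter.1 hx).2.1
    rw [Finset.card_finsupp]
    unfold un
    rw [Finset.prod_biUnion (fun i _ j _ hij => hdj i j hij)]
    refine Finset.prod_congr rfl fun u _ => ?_
    refine (Finset.prod_congr rfl fun p hp => ?_).trans (Finset.prod_const _)
    show (Finset.univ.filter fun v => ∀ w, p ∈ x w → v ∈ D.Wu w).card = _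
    have h1 : (Finset.univ.filter fun v : VV D.n => ∀ w, p ∈ x w → v ∈ D.Wu w) =
        Finset.univ.filter fun v : VV D.n => v ∈ D.Wu u := by
      refine Finset.filter_congr fun v _ => ⟨fun h => h u hp, fun h w hw => ?_⟩
      by_cases huw : u = w
      · exact huw ▸ h
      · exact absurd hw (Finset.disjoint_left.1 (hdj u w huw) hp)
    rw [h1, ← Fintype.card_subtype, ← Nat.card_eq_fintype_card]
  have hT : (TT.card : ℝ) = ∑ x ∈ AA, ((2 : ℝ) ^ D.n) ^ F.sys.m *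
      (1 * ∏ u, (Nat.card (D.Wu u) : ℝ) ^ (x u).card) := by
    rw [Finset.card_sigma]
    push_cast
    refine Finset.sum_congr rfl fun x hx => ?_
    rw [Finset.card_product, htt x hx, Finset.card_univ, Fintype.card_fun, Fintype.card_fun,
      ZMod.card, Fintype.card_fin, Fintype.card_fin]
    push_cast
    ring
  rw [hT]
  unfold SQ
  rw [Finset.mul_sum, Finset.sum_filter]
  refine Finset.sum_congr rfl fun x _ => ?_
  split_ifs with h
  · rfl
  · rw [mul_zero]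

end Pool.Agent.EW
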