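import Pool.Agent.EW.UStm
import Pool.Agent.EV.UOk

/-!
# Project T5 (MP_a3214d), even order, row UX4: the local conditions
-/

set_option autoImplicit false

open scoped BigOperators
open NumberField IsDedekindDomain

namespace Pool.Agent.EW

open Pool.Agent.H98.MF
open Pool.Agent.H98.MK (sg)
open Pool.Agent.H32.MQ (El rep co)
open Pool.Agent.D8 (pat RxF)
open Pool.Agent.EV (VV BD xc Off uok_comm uok_pi uok_rep)

section

variable {k : Type} [Field k] [NumberField k] {F : Frm k} {G : Type} [Group G]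

/-- the commutator of a commuting element vanishes -/
theorem uokq_c (D : GB G) {g : G} {v : VV D.d} {x : VV D.n}
    (h : g * (D.s v * D.zz x) = D.s v * D.zz x * g) : D.c g v = 0 := by
  have h1 : D.s v * D.zz x * g = g * (D.s v * D.zz (D.c g v + x)) := by
    rw [mul_assoc, D.zz_cen, ← mul_assoc, D.com, D.zz_add]
    simp only [mul_assoc]
  rw [h1] at h
  have h2 := D.sz_inj (mul_left_cancel h)
  have h3 := h2.2
  funext i
  have h4 : x i = D.c g v i + x i := congrFun h3 i
  have h5 : D.c g v i = 0 := by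
    have h6 := congrArg (fun t => t + x i) h4
    simp only [add_assoc, CharTwo.add_self_eq_zero, add_zero] at h6
    exact h6.symm
  exact h5

/-- evaluation as an additive map -/
noncomputable def uokqH (F : Frm k) {r : ℕ} (σ : Gm k) : (F.I →₀ (Fin r → ZMod 2)) →+
    (Fin r → ZMod 2) :=
  AddMonoidHom.mk' (fun x => F.par x σ) fun x y => F.par_add x y σ

theorem uokq_par {d : ℕ} {ι : Type} [Fintype ι] (v : ι → VV d) (y : Fin F.sys.m → VV d)
    (X : ι → Finset F.sys.P) (σ : Gm k) : F.par (xo F v y X) σ = F.parU y σ +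
      ∑ u, (∑ p ∈ X u, chi (F.pi p : k) σ) • v u := by
  classical
  change uokqH F σ (xo F v y X) = _
  unfold xo
  rw [map_add, map_sum, map_sum]
  congr 1
  · unfold Frm.parU
    refine Finset.sum_congr rfl fun j _ => ?_
    change F.par (Finsupp.single (Sum.inl j) (y j)) σ = _
    rw [Pool.Agent.H98.MF.Frm.Inv.par_single]
    rfl
  · refine Finset.sum_congr rfl fun u _ => ?_
    rw [map_sum, Finset.sum_smul]
    refine Finset.sum_congr rfl fun p _ => ?_
    change F.par (Finsupp.single (Sum.inr p) (v u)) σ = _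
    rw [Pool.Agent.H98.MF.Frm.Inv.par_single]
    rfl

end

/-- **Row UX4.** The local conditions. -/
theorem suok (k : Type) [Field k] [NumberField k] : SUok k := by
  classical
  intro F Rk G _ _ Ms ι _ D hG ρs M xs y c hc ρ X f hρ hX u p hp ζ
  obtain ⟨hpM, x, hx⟩ := (hX.mem u p).1 hp
  have h0 : ρ (Rk.tau (F.pl p)) ^ 2 = 1 := by
    rw [hx]
    exact (D.sz_sq_eq_one _ _).2 (D.sq u)
  have h1 := uok_comm hG ρ hρ.lc p h0
  rw [hx] at h1
  have h2 := uokq_c D.toGB h1
  rw [hX.eq, D.c_mul, D.c_mul, D.c_zz, add_zero, D.c_s'] at h2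
  have h3 : F.par (xo F D.vc y X + xs) (Rk.phi (F.pl p)) =
      (F.parU y (Rk.phi (F.pl p)) + F.par xs (Rk.phi (F.pl p))) +
        ∑ w, (∑ q ∈ X w, chi (F.pi q : k) (Rk.phi (F.pl p))) • D.vc w := by
    rw [F.par_add, uokq_par]
    abel
  rw [h3, map_add, LinearMap.add_apply, ← add_assoc] at h2
  have h4 := congrArg (fun t => ζ ⬝ᵥ t) h2
  simp only [dotProduct_add, dotProduct_zero] at h4
  have h5 := hc.eq u ζ (Rk.phi (F.pl p))
  have hpc : p ∉ (c u ζ).2 := fun h => hpM (hc.sub _ _ h)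
  rw [uok_rep (c u ζ) p hpc, dotProduct_add] at h5
  rw [← h5] at h4
  have h6 : ζ ⬝ᵥ (D.Bd.B (∑ w, (∑ q ∈ X w, chi (F.pi q : k) (Rk.phi (F.pl p))) •
      D.vc w)) (D.vc u) =
        ∑ w, (∑ q ∈ X w, F.sys.J q p) * (ζ ⬝ᵥ D.Bd.B (D.vc w) (D.vc u)) := by
    rw [map_sum, LinearMap.sum_apply, dotProduct_sum]
    refine Finset.sum_congr rfl fun w _ => ?_
    rw [map_smul, LinearMap.smul_apply, dotProduct_smul, smul_eq_mul]
    by_cases hw : w = u
    · rw [hw, D.Bd.alt, dotProduct_zero, mul_zero, mul_zero]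
    · congr 1
      refine Finset.sum_congr rfl fun q hq => uok_pi p q fun hqp => ?_
      rw [hqp] at hq
      exact Finset.disjoint_left.1 (hX.dj w u hw) hq hp
  rw [h6] at h4
  rw [add_comm]
  exact h4

end Pool.Agent.EW
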