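import Pool.Agent.EW.UStm
import Pool.Agent.H98.MF.ParK
import Pool.Agent.H98.MF.ChiM

/-!
# Project T5 (MP_a3214d), even order, row UX5: the patterns
-/

set_option autoImplicit false

open scoped BigOperators
open NumberField IsDedekindDomain

namespace Pool.Agent.EW

open Pool.Agent.H98.MF
open Pool.Agent.H98.MK (sg)
open Pool.Agent.H32.MQ (El rep co)
open Pool.Agent.D8 (pat RxF ad)
open Pool.Agent.EV (VV BD xc Off)
open Pool.Agent.TF (OkM HypM Mcl InnU5)
open Pool.Agent.H92.EL (TM)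

section

variable {k : Type} [Field k] [NumberField k] (F : Frm k)

private theorem uxph_zero {r : ℕ} (σ : Gm k) : F.par (0 : F.I →₀ (Fin r → ZMod 2)) σ = 0 := by
  unfold Frm.par
  exact Finsupp.sum_zero_index

private theorem uxph_sum {r : ℕ} {ι : Type} (s : Finset ι) (x : ι → F.I →₀ (Fin r → ZMod 2))
    (σ : Gm k) : F.par (∑ i ∈ s, x i) σ = ∑ i ∈ s, F.par (x i) σ := by
  classical
  induction s using Finset.induction_on with
  | empty => rw [Finset.sum_empty, Finset.sum_empty, uxph_zero]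
  | insert i s hi ih => rw [Finset.sum_insert hi, Finset.sum_insert hi, F.par_add, ih]

private theorem uxph_single {r : ℕ} (i : F.I) (v : Fin r → ZMod 2) (σ : Gm k) :
    F.par (Finsupp.single i v) σ = chi (F.e i : k) σ • v := by
  unfold Frm.par
  exact Finsupp.sum_single_index (smul_zero _)

private theorem uxph_par {d : ℕ} {ι : Type} [Fintype ι] (v : ι → VV d) (y : Fin F.sys.m → VV d)
    (X : ι → Finset F.sys.P) (σ : Gm k) : F.par (xo F v y X) σ = F.parU y σ +
      ∑ u, ∑ p ∈ X u, chi (F.pi p : k) σ • v u := by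
  unfold xo
  rw [F.par_add, uxph_sum, uxph_sum]
  congr 1
  · unfold Frm.parU
    refine Finset.sum_congr rfl fun j _ => ?_
    rw [uxph_single]
    rfl
  · refine Finset.sum_congr rfl fun v _ => ?_
    rw [uxph_sum]
    refine Finset.sum_congr rfl fun p _ => ?_
    rw [uxph_single]
    rfl

private theorem uxph_rep (σ : Gm k) : chi (rep F ((0, ∅) : El F.sys) : k) σ = 0 := by
  have h1 : rep F ((0, ∅) : El F.sys) = 1 := by
    unfold rep
    rw [Finset.prod_empty, mul_one]
    refine Finset.prod_eq_one fun j _ => ?_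
    show F.u j ^ (0 : ZMod 2).val = 1
    rw [ZMod.val_zero, pow_zero]
  rw [h1]
  exact Pool.Agent.H98.MF.M6a.chi_one σ

end

theorem suph (k : Type) [Field k] [NumberField k] : SUph k := by
  classical
  intro F Rk G _ _ Ms ι _ D ρs M xs y c hc ρ X f hA hC u ζ hζ hw z hz
  obtain ⟨g, rfl⟩ := hz
  obtain ⟨σ, rfl⟩ := hA.sur g
  have e1 : D.c (ρ σ) (D.vc u) = D.c (ρs σ) (D.vc u) +
      D.Bd.B (F.par (xo F D.vc y X + xs) σ) (D.vc u) := by
    rw [hC.eq σ, D.c_mul, D.c_mul, D.c_zz, add_zero, D.c_s']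
  have e2 : F.par (xo F D.vc y X + xs) σ = (F.parU y σ + F.par xs σ) +
      ∑ w, ∑ p ∈ X w, chi (F.pi p : k) σ • D.vc w := by
    rw [F.par_add, uxph_par]
    abel
  have e3 : ζ ⬝ᵥ D.Bd.B (∑ w, ∑ p ∈ X w, chi (F.pi p : k) σ • D.vc w) (D.vc u) = 0 := by
    rw [map_sum, LinearMap.sum_apply, dotProduct_sum]
    refine Finset.sum_eq_zero fun w _ => ?_
    rw [map_sum, LinearMap.sum_apply, dotProduct_sum]
    refine Finset.sum_eq_zero fun p hp => ?_
    rw [map_smul, LinearMap.smul_apply, dotProduct_smul, hw w, smul_zero]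
    unfold pat
    rw [Finset.mem_filter]
    exact ⟨Finset.mem_univ _, ⟨p, hp⟩⟩
  rw [e1, e2, map_add, LinearMap.add_apply, ← add_assoc, dotProduct_add, e3, add_zero,
    ← hc.eq u ζ σ, hζ]
  exact uxph_rep F σ

end Pool.Agent.EW
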