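import Pool.Agent.EW.Defs

/-!
# Project T5 (MP_a3214d), even order: the uniform inner statement, definitions and statements

`ρs` is one element of the set to be counted. The other elements are `ρs σ * (s (a σ) * zz (f σ))`
with `a` additive; the coordinates of `a` are the unit coordinates `y`, the vectors `xs` of the
tame inertia of `ρs` outside `M`, and the sets `X u` of the primes outside `M` with inertia
in the class `u`.
-/

set_option autoImplicit false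

open scoped BigOperators
open NumberField IsDedekindDomain

namespace Pool.Agent.EW

open Pool.Agent.H98.MF
open Pool.Agent.H32.MQ (El rep co)
open Pool.Agent.D8 (pat RxF ad)
open Pool.Agent.EV (VV BD xc Off)
open Pool.Agent.TF (OkM HypM Mcl InnU5)
open Pool.Agent.H92.EL (TM)

section

variable {k : Type} [Field k] [NumberField k] (F : Frm k) (Rk : RxF k) {G : Type} [Group G]
  {Ms : Set G} {ι : Type} [Fintype ι] (D : GM G Ms ι)

/-- surjective homomorphisms congruent to `ρs`, with the same tame generators at `M` and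
inertia trivial or in `Ms` outside `S` and `M` -/
structure UA (ρs : Gm k →* G) (M : Finset F.sys.P) (ρ : Gm k →* G) : Prop where
  sur : Function.Surjective ρ
  lc : IsLocallyConstant ρ
  sim : D.Sim ρs ρ
  inM : ∀ p ∈ M, ρ (Rk.tau (F.pl p)) = ρs (Rk.tau (F.pl p))
  out : ∀ p, p ∉ M → OkM Ms (ρ (Rk.tau (F.pl p)))

/-- the ramification of the base point outside `M` -/
structure XS (ρs : Gm k →* G) (M : Finset F.sys.P) (xs : F.I →₀ VV D.d) : Prop where
  unit : ∀ j, xs (Sum.inl j) = 0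
  inM : ∀ p ∈ M, xs (Sum.inr p) = 0
  out : ∀ p, p ∉ M → ∃ x, ρs (Rk.tau (F.pl p)) = D.s (xs (Sum.inr p)) * D.zz x

/-- coordinates of a homomorphism -/
structure UC (ρs : Gm k →* G) (M : Finset F.sys.P) (xs : F.I →₀ VV D.d)
    (y : Fin F.sys.m → VV D.d) (X : ι → Finset F.sys.P) (f : Gm k → VV D.n)
    (ρ : Gm k →* G) : Prop where
  dj : F.sys.Dj X
  off : Off F.sys M X
  isr : IsR D.toGB ρs (F.par (xo F D.vc y X + xs)) f
  eq : ∀ σ, ρ σ = ρs σ * (D.s (F.par (xo F D.vc y X + xs) σ) * D.zz (f σ))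
  mem : ∀ (u : ι) (p : F.sys.P), p ∈ X u ↔ (p ∉ M ∧ D.In u (ρ (Rk.tau (F.pl p))))

omit [Fintype ι] in
/-- the classes of the outer characters: `ζ` composed with the commutator with `vc u` -/
structure UCl (ρs : Gm k →* G) (M : Finset F.sys.P) (xs : F.I →₀ VV D.d)
    (y : Fin F.sys.m → VV D.d) (c : ι → VV D.n → El F.sys) : Prop where
  sub : ∀ u ζ, (c u ζ).2 ⊆ M
  eq : ∀ u ζ σ, chi (rep F (c u ζ) : k) σ =
    ζ ⬝ᵥ (D.c (ρs σ) (D.vc u) + D.Bd.B (F.parU y σ + F.par xs σ) (D.vc u))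

/-- the homomorphisms with given unit coordinates and bounded ramification outside `M` -/
def US (ρs : Gm k →* G) (M : Finset F.sys.P) (xs : F.I →₀ VV D.d)
    (y : Fin F.sys.m → VV D.d) (Y : ℝ) : Set (Gm k →* G) :=
  {ρ | UA F Rk D ρs M ρ ∧ (∃ X f, UC F Rk D ρs M xs y X f ρ) ∧
    ∃ A : Finset F.sys.P, (∀ p, p ∈ A ↔ (p ∉ M ∧ ρ (Rk.tau (F.pl p)) ≠ 1)) ∧
      (F.sys.nm A : ℝ) ≤ Y}

end

/-- the patterns for which a dual vector of trivial class, unlinked with the pattern, vanishes on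
the commutators -/
def Pq {S : Sys} {d n : ℕ} {ι : Type} (Bd : BD d n) (v : ι → VV d)
    (W : ι → Submodule (ZMod 2) (VV n)) (c : ι → VV n → El S) (U : Finset ι) : Prop :=
  ∀ u, ∀ ζ : VV n, c u ζ = (0, ∅) → (∀ w ∈ U, ζ ⬝ᵥ Bd.B (v w) (v u) = 0) →
    ∀ z ∈ W u, ζ ⬝ᵥ z = 0

/-! ### statements -/

section

variable (k : Type) [Field k] [NumberField k]

/-- UX1: the ramification of the base point -/
def SUxs : Prop := ∀ (F : Frm k) (Rk : RxF k) (G : Type) [Group G] [Finite G] (Ms : Set G)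
  (ι : Type) [Fintype ι] (D : GM G Ms ι), IsPGroup 2 G →
  ∀ (ρs : Gm k →* G) (M : Finset F.sys.P), UA F Rk D ρs M ρs →
    ∃ xs : F.I →₀ VV D.d, XS F Rk D ρs M xs

/-- UX2: coordinates -/
def SUco : Prop := ∀ (F : Frm k) (Rk : RxF k) (G : Type) [Group G] [Finite G] (Ms : Set G)
  (ι : Type) [Fintype ι] (D : GM G Ms ι), IsPGroup 2 G →
  ∀ (ρs : Gm k →* G) (M : Finset F.sys.P) (xs : F.I →₀ VV D.d),
  UA F Rk D ρs M ρs → XS F Rk D ρs M xs → ∀ ρ, UA F Rk D ρs M ρ →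
    ∃ y X f, UC F Rk D ρs M xs y X f ρ

/-- UX3: the classes of the outer characters -/
def SUcl : Prop := ∀ (F : Frm k) (Rk : RxF k) (G : Type) [Group G] [Finite G] (Ms : Set G)
  (ι : Type) [Fintype ι] (D : GM G Ms ι), IsPGroup 2 G →
  ∀ (ρs : Gm k →* G) (M : Finset F.sys.P) (xs : F.I →₀ VV D.d),
  UA F Rk D ρs M ρs → XS F Rk D ρs M xs → ∀ y, ∃ c, UCl F D ρs M xs y c

/-- UX3b: the classes are additive and trivial on the dual vectors vanishing on `Wu` -/
def SUad : Prop := ∀ (F : Frm k) (G : Type) [Group G] (Ms : Set G) (ι : Type) [Fintype ι]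
  (D : GM G Ms ι) (ρs : Gm k →* G) (M : Finset F.sys.P) (xs : F.I →₀ VV D.d)
  (y : Fin F.sys.m → VV D.d) (c : ι → VV D.n → El F.sys), UCl F D ρs M xs y c → Adq D.Wu c

/-- UX4: the local conditions -/
def SUok : Prop := ∀ (F : Frm k) (Rk : RxF k) (G : Type) [Group G] [Finite G] (Ms : Set G)
  (ι : Type) [Fintype ι] (D : GM G Ms ι), IsPGroup 2 G →
  ∀ (ρs : Gm k →* G) (M : Finset F.sys.P) (xs : F.I →₀ VV D.d)
  (y : Fin F.sys.m → VV D.d) (c : ι → VV D.n → El F.sys), UCl F D ρs M xs y c →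
  ∀ ρ X f, UA F Rk D ρs M ρ → UC F Rk D ρs M xs y X f ρ → okq D.Bd D.vc c X

/-- UX5: the patterns -/
def SUph : Prop := ∀ (F : Frm k) (Rk : RxF k) (G : Type) [Group G] [Finite G] (Ms : Set G)
  (ι : Type) [Fintype ι] (D : GM G Ms ι) (ρs : Gm k →* G) (M : Finset F.sys.P)
  (xs : F.I →₀ VV D.d) (y : Fin F.sys.m → VV D.d) (c : ι → VV D.n → El F.sys),
  UCl F D ρs M xs y c →
  ∀ ρ X f, UA F Rk D ρs M ρ → UC F Rk D ρs M xs y X f ρ → Pq D.Bd D.vc D.Wu c (pat X)

/-- UX6: the number of homomorphisms -/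
def SUnc : Prop := ∀ (F : Frm k) (Rk : RxF k) (G : Type) [Group G] [Finite G] (Ms : Set G)
  (ι : Type) [Fintype ι] (D : GM G Ms ι), IsPGroup 2 G →
  ∀ (ρs : Gm k →* G) (M : Finset F.sys.P) (xs : F.I →₀ VV D.d)
  (y : Fin F.sys.m → VV D.d) (c : ι → VV D.n → El F.sys) (Φ : Finset ι → Prop),
  XS F Rk D ρs M xs → (∀ ρ X f, UA F Rk D ρs M ρ → UC F Rk D ρs M xs y X f ρ →
    okq D.Bd D.vc c X ∧ Φ (pat X)) → ∀ Y : ℝ, 1 ≤ Y →
    (US F Rk D ρs M xs y Y).Finite ∧ ((US F Rk D ρs M xs y Y).ncard : ℝ) ≤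
      ((2 : ℝ) ^ D.n) ^ F.sys.m *
        SQ D.Bd D.vc D.Wu c M Φ (fun _ => True) (fun _ => 1) Y

/-- UX7: the uniform inner statement -/
def SInnU : Prop := ∀ (T : TM k) (G : Type) [Group G] [Finite G] (Ms : Set G) (ι : Type)
  [Fintype ι] [Nonempty ι] (_ : GM G Ms ι), IsPGroup 2 G → InnU5 Ms T (Fintype.card ι)

end

end Pool.Agent.EW
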